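import Pool.Agent.Helper92.PU.St

/-! Project PU, module TV: interpolation of a binary form -/

namespace Pool.Agent.Helper60.PU

open Pool.Agent.Helper92.PU Pool.Agent.Helper92.PW
open Finset Matrix

private theorem det_col_le {n : ℕ} (U : Matrix (Fin (n + 1)) (Fin (n + 1)) ℝ) (l : Fin (n + 1))
    {M : ℝ} (h1 : ∀ i j, j ≠ l → |U i j| ≤ 1) (h2 : ∀ i, |U i l| ≤ M) :
    |U.det| ≤ ((n + 1).factorial : ℝ) * M := by
  have hM : 0 ≤ M := (abs_nonneg _).trans (h2 l)
  rw [Matrix.det_apply]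
  refine (Finset.abs_sum_le_sum_abs _ _).trans ?_
  have h3 : ∀ σ ∈ (Finset.univ : Finset (Equiv.Perm (Fin (n + 1)))),
      |Equiv.Perm.sign σ • ∏ i, U (σ i) i| ≤ M := by
    intro σ _
    have h4 : |Equiv.Perm.sign σ • ∏ i, U (σ i) i| = ∏ i, |U (σ i) i| := by
      rw [← Finset.abs_prod]
      rcases Int.units_eq_one_or (Equiv.Perm.sign σ) with h | h
      · rw [h, one_smul]
      · rw [h, Units.neg_smul, one_smul, abs_neg]
    rw [h4, ← Finset.mul_prod_erase _ _ (Finset.mem_univ l)]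
    have h5 : ∏ i ∈ Finset.univ.erase l, |U (σ i) i| ≤ 1 :=
      Finset.prod_le_one (fun i _ => abs_nonneg _)
        (fun i hi => h1 _ _ (Finset.ne_of_mem_erase hi))
    have h6 : 0 ≤ ∏ i ∈ Finset.univ.erase l, |U (σ i) i| :=
      Finset.prod_nonneg (fun i _ => abs_nonneg _)
    calc |U (σ l) l| * ∏ i ∈ Finset.univ.erase l, |U (σ i) i| ≤ M * 1 :=
          mul_le_mul (h2 _) h5 h6 hM
      _ = M := mul_one M
  refine (Finset.sum_le_sum h3).trans (le_of_eq ?_)
  rw [Finset.sum_const, Finset.card_univ, Fintype.card_perm, Fintype.card_fin, nsmul_eq_mul]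

theorem hTV : StTV := by
  intro d
  have hf : (1 : ℝ) ≤ ((d + 1).factorial : ℝ) := by
    exact_mod_cast (d + 1).factorial_pos
  refine ⟨((d + 1).factorial : ℝ), hf, ?_⟩
  intro σ M ω γ hσ hσ1 hM hω hsep hb l hl
  set A : Matrix (Fin (d + 1)) (Fin (d + 1)) ℝ :=
    projVandermonde (fun i => (ω i).1) (fun i => (ω i).2) with hA
  set b : Fin (d + 1) → ℝ := fun i => bf d γ (ω i).1 (ω i).2 with hbd
  set c : Fin (d + 1) → ℝ := fun j => γ j with hc
  have hent : ∀ i j, A i j = (ω i).1 ^ (j : ℕ) * (ω i).2 ^ (d - (j : ℕ)) := by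
    intro i j
    rw [hA, projVandermonde_apply]
    congr 2
    simp [Fin.rev]
  have hAc : A *ᵥ c = b := by
    funext i
    rw [Matrix.mulVec, hbd]
    change ∑ j, A i j * γ j = bf d γ (ω i).1 (ω i).2
    unfold bf
    rw [Finset.sum_range]
    refine Finset.sum_congr rfl (fun j _ => ?_)
    rw [hent]
    ring
  have hcr : A.det * γ l = (A.updateCol ⟨l, Nat.lt_succ_of_le hl⟩ b).det := by
    have h1 : A.cramer b = A.det • c := by
      rw [Matrix.cramer_eq_adjugate_mulVec, ← hAc, Matrix.mulVec_mulVec, Matrix.adjugate_mul,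
        Matrix.smul_mulVec, Matrix.one_mulVec]
    have h2 := congrFun h1 ⟨l, Nat.lt_succ_of_le hl⟩
    rw [Matrix.cramer_apply] at h2
    rw [h2]
    rfl
  have hup : |(A.updateCol ⟨l, Nat.lt_succ_of_le hl⟩ b).det| ≤ ((d + 1).factorial : ℝ) * M := by
    apply det_col_le _ ⟨l, Nat.lt_succ_of_le hl⟩
    · intro i j hj
      rw [Matrix.updateCol_ne hj, hent, abs_mul, abs_pow, abs_pow]
      have h1 := pow_le_one₀ (n := (j : ℕ)) (abs_nonneg _) (hω i).1
      have h2 := pow_le_one₀ (n := d - (j : ℕ)) (abs_nonneg _) (hω i).2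
      exact mul_le_one₀ h1 (by positivity) h2
    · intro i
      rw [Matrix.updateCol_self]
      exact hb i
  have hlow : σ ^ (d * (d + 1)) ≤ |A.det| := by
    rw [hA, det_projVandermonde, Finset.abs_prod]
    have h1 : ∀ i ∈ (Finset.univ : Finset (Fin (d + 1))), σ ^ d ≤
        |∏ j ∈ Finset.Ioi i, ((ω j).1 * (ω i).2 - (ω i).1 * (ω j).2)| := by
      intro i _
      rw [Finset.abs_prod]
      have h2 : ∏ _j ∈ Finset.Ioi i, σ ≤
          ∏ j ∈ Finset.Ioi i, |(ω j).1 * (ω i).2 - (ω i).1 * (ω j).2| := by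
        refine Finset.prod_le_prod (fun j _ => hσ.le) (fun j hj => ?_)
        have h3 := hsep j i (ne_of_gt (Finset.mem_Ioi.1 hj))
        unfold crr at h3
        have h4 : (ω j).1 * (ω i).2 - (ω i).1 * (ω j).2
            = (ω j).1 * (ω i).2 - (ω j).2 * (ω i).1 := by ring
        rw [h4]
        exact h3
      refine le_trans ?_ h2
      rw [Finset.prod_const]
      refine pow_le_pow_of_le_one hσ.le hσ1 ?_
      rw [Fin.card_Ioi]
      omega
    have h5 : ∏ _i ∈ (Finset.univ : Finset (Fin (d + 1))), σ ^ d ≤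
        ∏ i, |∏ j ∈ Finset.Ioi i, ((ω j).1 * (ω i).2 - (ω i).1 * (ω j).2)| :=
      Finset.prod_le_prod (fun i _ => by positivity) h1
    refine le_trans (le_of_eq ?_) h5
    rw [Finset.prod_const, Finset.card_univ, Fintype.card_fin, ← pow_mul]
  rw [le_div_iff₀ (by positivity)]
  calc |γ l| * σ ^ (d * (d + 1)) ≤ |γ l| * |A.det| :=
        mul_le_mul_of_nonneg_left hlow (abs_nonneg _)
    _ = |A.det * γ l| := by rw [abs_mul, mul_comm]
    _ ≤ ((d + 1).factorial : ℝ) * M := by rw [hcr]; exact hup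

end Pool.Agent.Helper60.PU
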